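import Pool.Agent.TH285.SN.Even

set_option autoImplicit false

/-!
# The strong n-conjecture: the secondary factor
-/

namespace Pool.Agent.TH285.SN

theorem asym {d s : ℕ} (hs : 0 < s) {C B D P m R X : ℕ} (hC : 1 ≤ C) (hB : 1 ≤ B) (hP : 1 ≤ P)
    (hR : 1 ≤ R) (hX : 1 ≤ X) (h1 : R * P ^ (m + 1) ≤ C * X ^ s) (h2 : X ≤ B ^ (D * P ^ m)) :
    ((R : ℝ) * Real.log R) ^ ((d : ℝ) / s) ≤
      ((C : ℝ) * (Real.log C + s * D * Real.log B)) ^ ((d : ℝ) / s) * (X : ℝ) ^ d := by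
  have hR' : (1 : ℝ) ≤ R := by exact_mod_cast hR
  have hC' : (1 : ℝ) ≤ C := by exact_mod_cast hC
  have hX' : (1 : ℝ) ≤ X := by exact_mod_cast hX
  have hP' : (1 : ℝ) ≤ P := by exact_mod_cast hP
  have hB' : (1 : ℝ) ≤ B := by exact_mod_cast hB
  have hs' : (0 : ℝ) < s := by exact_mod_cast hs
  have hPm : (1 : ℝ) ≤ (P : ℝ) ^ m := one_le_pow₀ hP'
  have hPm1 : (1 : ℝ) ≤ (P : ℝ) ^ (m + 1) := one_le_pow₀ hP'
  have h1' : (R : ℝ) * (P : ℝ) ^ (m + 1) ≤ C * (X : ℝ) ^ s := by exact_mod_cast h1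
  have h2' : (X : ℝ) ≤ (B : ℝ) ^ (D * P ^ m) := by exact_mod_cast h2
  have hlC : 0 ≤ Real.log C := Real.log_nonneg hC'
  have hlB : 0 ≤ Real.log B := Real.log_nonneg hB'
  have hlX : Real.log X ≤ D * (P : ℝ) ^ m * Real.log B := by
    have h3 := Real.log_le_log (by linarith) h2'
    rw [Real.log_pow] at h3
    push_cast at h3
    exact h3
  have hlR : Real.log R ≤ (Real.log C + s * D * Real.log B) * (P : ℝ) ^ m := by
    have h3 : (R : ℝ) ≤ C * (X : ℝ) ^ s := by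
      have : (R : ℝ) ≤ R * (P : ℝ) ^ (m + 1) := le_mul_of_one_le_right (by linarith) hPm1
      linarith
    have h4 := Real.log_le_log (by linarith) h3
    rw [Real.log_mul (by positivity) (by positivity), Real.log_pow] at h4
    have h5 : (s : ℝ) * Real.log X ≤ s * (D * (P : ℝ) ^ m * Real.log B) :=
      mul_le_mul_of_nonneg_left hlX hs'.le
    have h6 : Real.log C ≤ Real.log C * (P : ℝ) ^ m := le_mul_of_one_le_right hlC hPm
    calc Real.log R ≤ Real.log C + s * Real.log X := h4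
      _ ≤ Real.log C * (P : ℝ) ^ m + s * (D * (P : ℝ) ^ m * Real.log B) := by linarith
      _ = (Real.log C + s * D * Real.log B) * (P : ℝ) ^ m := by ring
  set L : ℝ := Real.log C + s * D * Real.log B with hL
  have hL0 : 0 ≤ L := by rw [hL]; positivity
  have hm : (R : ℝ) * Real.log R ≤ (C * L) * (X : ℝ) ^ s := by
    have h3 : (P : ℝ) ^ m ≤ (P : ℝ) ^ (m + 1) := pow_le_pow_right₀ hP' (by omega)
    calc (R : ℝ) * Real.log R ≤ R * (L * (P : ℝ) ^ m) :=
          mul_le_mul_of_nonneg_left hlR (by linarith)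
      _ ≤ R * (L * (P : ℝ) ^ (m + 1)) := by gcongr
      _ = L * (R * (P : ℝ) ^ (m + 1)) := by ring
      _ ≤ L * (C * (X : ℝ) ^ s) := mul_le_mul_of_nonneg_left h1' hL0
      _ = (C * L) * (X : ℝ) ^ s := by ring
  have h0 : 0 ≤ (R : ℝ) * Real.log R := mul_nonneg (by linarith) (Real.log_nonneg hR')
  calc ((R : ℝ) * Real.log R) ^ ((d : ℝ) / s) ≤ ((C * L) * (X : ℝ) ^ s) ^ ((d : ℝ) / s) :=
        Real.rpow_le_rpow h0 hm (by positivity)
    _ = (C * L) ^ ((d : ℝ) / s) * ((X : ℝ) ^ s) ^ ((d : ℝ) / s) :=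
        Real.mul_rpow (by positivity) (by positivity)
    _ = (C * L) ^ ((d : ℝ) / s) * (X : ℝ) ^ d := by
        congr 1
        rw [← Real.rpow_natCast (X : ℝ) s, ← Real.rpow_mul (by linarith),
          mul_div_cancel₀ _ hs'.ne', Real.rpow_natCast]

theorem infinite_of {n : ℕ} (S : Set (Fin n → ℤ)) (i : Fin n)
    (h : ∀ N : ℕ, ∃ x ∈ S, N < (x i).natAbs) : S.Infinite := by
  intro hfin
  obtain ⟨B, hB⟩ := (hfin.image (fun x => (x i).natAbs)).bddAbove
  obtain ⟨x, hx, hlt⟩ := h B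
  have := hB ⟨x, hx, rfl⟩
  simp only at this
  omega

/-- the exponent: `5/3` for odd `n`, `7/5` for even `n` -/
noncomputable def expo (n : ℕ) : ℝ := if Odd n then 5 / 3 else 7 / 5

theorem expo_pos (n : ℕ) : 0 < expo n := by
  unfold expo; split_ifs <;> norm_num

theorem main (n : ℕ) (hn : 5 ≤ n) : ∃ c : ℝ, 0 < c ∧
    {x : Fin n → ℤ | Adm x ∧
      ∃ j, c * ((rad x : ℝ) * Real.log (rad x)) ^ expo n ≤ |((x j : ℤ) : ℝ)|}.Infinite := by
  rcases Nat.even_or_odd n with he | ho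
  · have hno : ¬ Odd n := Nat.not_odd_iff_even.2 he
    have hn6 : 6 ≤ n := by
      rcases Nat.lt_or_ge n 6 with h | h
      · exfalso
        have : n = 5 := by omega
        subst this
        exact absurd he (by decide)
      · exact h
    have hq : expo n = ((7 : ℕ) : ℝ) / (5 : ℕ) := by unfold expo; rw [if_neg hno]; norm_num
    set W : ℝ := ((cE : ℝ) * (Real.log cE + (5 : ℕ) * (46 * h11 : ℕ) * Real.log (11 : ℕ))) ^
      (((7 : ℕ) : ℝ) / (5 : ℕ)) with hW
    have hcE : (1 : ℕ) ≤ cE := by unfold cE; norm_num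
    have hcE' : (1 : ℝ) ≤ cE := by exact_mod_cast hcE
    have hWpos : 0 < W := by
      rw [hW]
      apply Real.rpow_pos_of_pos
      have h1 : 0 ≤ Real.log cE := Real.log_nonneg hcE'
      have h2 : 0 < Real.log (11 : ℕ) := Real.log_pos (by norm_num)
      have h3 : (0 : ℝ) < ((46 * h11 : ℕ) : ℝ) := by
        have : 0 < 46 * h11 := by unfold h11; norm_num
        exact_mod_cast this
      have h4 : 0 < ((5 : ℕ) : ℝ) * ((46 * h11 : ℕ) : ℝ) * Real.log (11 : ℕ) := by positivity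
      have h5 : 0 < Real.log cE + ((5 : ℕ) : ℝ) * ((46 * h11 : ℕ) : ℝ) * Real.log (11 : ℕ) := by
        linarith
      exact mul_pos (by linarith) h5
    refine ⟨W⁻¹, inv_pos.2 hWpos, infinite_of _ ⟨0, by omega⟩ fun N => ?_⟩
    obtain ⟨x, X, hadm, hx0, hr, hX1, hX2⟩ := exists_tuple_even hn6 he (N + 1) (by omega)
    have hXpos : 1 ≤ X := lt_of_le_of_lt (Nat.zero_le _) hX1
    have hN : N < X := by
      have h3 : N + 1 + 1 < 47 ^ (N + 1 + 1) := Nat.lt_pow_self (by norm_num)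
      omega
    refine ⟨x, ⟨hadm, ⟨0, by omega⟩, ?_⟩, ?_⟩
    · have h := asym (d := 7) (s := 5) (by norm_num) hcE (by norm_num : 1 ≤ 11)
        (by norm_num : 1 ≤ 47) (TH96.NC.rad_pos x) hXpos hr hX2
      rw [hx0, hq]
      push_cast at h ⊢
      rw [abs_of_nonneg (by positivity : (0 : ℝ) ≤ (X : ℝ) ^ 7), inv_mul_le_iff₀ hWpos]
      have e : W = ((cE : ℝ) * (Real.log cE + 5 * (46 * h11) * Real.log 11)) ^ ((7 : ℝ) / 5) := by
        rw [hW]; push_cast; rfl
      rw [e]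
      exact h
    · rw [hx0, Int.natAbs_pow, Int.natAbs_natCast]
      exact lt_of_lt_of_le hN (Nat.le_self_pow (by norm_num) X)
  · have hq : expo n = ((5 : ℕ) : ℝ) / (3 : ℕ) := by unfold expo; rw [if_pos ho]; norm_num
    set W : ℝ := (((15810 : ℕ) : ℝ) * (Real.log (15810 : ℕ) + (3 : ℕ) * (30 : ℕ) *
      Real.log (31 : ℕ))) ^ (((5 : ℕ) : ℝ) / (3 : ℕ)) with hW
    have hWpos : 0 < W := by
      rw [hW]
      apply Real.rpow_pos_of_pos
      have h1 : 0 ≤ Real.log (15810 : ℕ) := Real.log_nonneg (by norm_num)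
      have h2 : 0 < Real.log (31 : ℕ) := Real.log_pos (by norm_num)
      positivity
    refine ⟨W⁻¹, inv_pos.2 hWpos, infinite_of _ ⟨0, by omega⟩ fun N => ?_⟩
    obtain ⟨x, X, hadm, hx0, hr, hX1, hX2⟩ := exists_tuple hn ho N
    have hXpos : 1 ≤ X := lt_of_le_of_lt (Nat.zero_le _) hX1
    have hN : N < X := by
      have h3 : N + 1 < 17 ^ (N + 1) := Nat.lt_pow_self (by norm_num)
      omega
    refine ⟨x, ⟨hadm, ⟨0, by omega⟩, ?_⟩, ?_⟩
    · have h := asym (d := 5) (s := 3) (by norm_num) (by norm_num : 1 ≤ 15810)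
        (by norm_num : 1 ≤ 31) (by norm_num : 1 ≤ 17) (one_le_rad x) hXpos hr hX2
      rw [hx0, hq]
      push_cast at h ⊢
      rw [abs_of_nonneg (by positivity : (0 : ℝ) ≤ (X : ℝ) ^ 5), inv_mul_le_iff₀ hWpos]
      have e : W = ((15810 : ℝ) * (Real.log 15810 + 3 * 30 * Real.log 31)) ^ ((5 : ℝ) / 3) := by
        rw [hW]; push_cast; rfl
      rw [e]
      exact h
    · rw [hx0, Int.natAbs_pow, Int.natAbs_natCast]
      exact lt_of_lt_of_le hN (Nat.le_self_pow (by norm_num) X)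

theorem strict (n : ℕ) (hn : 5 ≤ n) (M K : ℝ)
    (hfin : {x : Fin n → ℤ | Adm x ∧
      ¬ ∀ j, |((x j : ℤ) : ℝ)| ≤ K * (rad x : ℝ) ^ M}.Finite) : expo n < M := by
  by_contra hcon
  rw [not_lt] at hcon
  obtain ⟨c, hc, hinf⟩ := main n hn
  have hq := expo_pos n
  set q := expo n with hqdef
  set T : ℝ := (|K| / c) ^ (1 / q) with hT
  set U : ℝ := |K| * (Real.exp T) ^ q with hU
  refine hinf ?_
  have hsub : {x : Fin n → ℤ | Adm x ∧
      ∃ j, c * ((rad x : ℝ) * Real.log (rad x)) ^ q ≤ |((x j : ℤ) : ℝ)|} ⊆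
      {x : Fin n → ℤ | Adm x ∧ ¬ ∀ j, |((x j : ℤ) : ℝ)| ≤ K * (rad x : ℝ) ^ M} ∪
        Set.Icc (fun _ => -⌈U⌉) (fun _ => ⌈U⌉) := by
    rintro x ⟨hx, j, hj⟩
    by_cases hall : ∀ j, |((x j : ℤ) : ℝ)| ≤ K * (rad x : ℝ) ^ M
    · right
      have hR : (1 : ℝ) ≤ rad x := by exact_mod_cast one_le_rad x
      have hl : 0 ≤ Real.log (rad x) := Real.log_nonneg hR
      have hRq : 0 < (rad x : ℝ) ^ q := Real.rpow_pos_of_pos (by linarith) q
      have hbd : ∀ j, |((x j : ℤ) : ℝ)| ≤ |K| * (rad x : ℝ) ^ q := by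
        intro i
        refine (hall i).trans ?_
        have h1 : (rad x : ℝ) ^ M ≤ (rad x : ℝ) ^ q := Real.rpow_le_rpow_of_exponent_le hR hcon
        have h2 : 0 ≤ (rad x : ℝ) ^ M := Real.rpow_nonneg (by linarith) _
        calc K * (rad x : ℝ) ^ M ≤ |K| * (rad x : ℝ) ^ M :=
              mul_le_mul_of_nonneg_right (le_abs_self K) h2
          _ ≤ |K| * (rad x : ℝ) ^ q := mul_le_mul_of_nonneg_left h1 (abs_nonneg K)
      have h3 : c * Real.log (rad x) ^ q ≤ |K| := by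
        have h4 := hj.trans (hbd j)
        rw [Real.mul_rpow (by linarith) hl] at h4
        have h5 : (c * Real.log (rad x) ^ q) * (rad x : ℝ) ^ q ≤ |K| * (rad x : ℝ) ^ q := by
          calc (c * Real.log (rad x) ^ q) * (rad x : ℝ) ^ q
              = c * ((rad x : ℝ) ^ q * Real.log (rad x) ^ q) := by ring
            _ ≤ _ := h4
        exact le_of_mul_le_mul_right h5 hRq
      have h6 : Real.log (rad x) ≤ T := by
        have h7 : Real.log (rad x) ^ q ≤ |K| / c := by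
          rw [le_div_iff₀ hc]; linarith
        have h8 := Real.rpow_le_rpow (Real.rpow_nonneg hl q) h7 (by positivity : 0 ≤ 1 / q)
        rw [← Real.rpow_mul hl, mul_one_div_cancel hq.ne', Real.rpow_one] at h8
        exact h8
      have h9 : (rad x : ℝ) ≤ Real.exp T := (Real.log_le_iff_le_exp (by linarith)).1 h6
      have h10 : ∀ i, |((x i : ℤ) : ℝ)| ≤ U := by
        intro i
        refine (hbd i).trans ?_
        rw [hU]
        exact mul_le_mul_of_nonneg_left (Real.rpow_le_rpow (by linarith) h9 hq.le) (abs_nonneg K)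
      refine ⟨fun i => ?_, fun i => ?_⟩
      · have h11 := (abs_le.1 (h10 i)).1
        have h12 : -((⌈U⌉ : ℤ) : ℝ) ≤ ((x i : ℤ) : ℝ) := by
          have := Int.le_ceil U
          linarith
        show -⌈U⌉ ≤ x i
        exact_mod_cast h12
      · have h11 := (abs_le.1 (h10 i)).2
        have h12 : ((x i : ℤ) : ℝ) ≤ ((⌈U⌉ : ℤ) : ℝ) := by
          have := Int.le_ceil U
          linarith
        show x i ≤ ⌈U⌉
        exact_mod_cast h12
    · exact Or.inl ⟨hx, hall⟩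
  exact (hfin.union (Set.finite_Icc _ _)).subset hsub

end Pool.Agent.TH285.SN
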