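import Pool.Agent.TH285.SN.Lift

set_option autoImplicit false

/-!
# The strong n-conjecture for odd `n`: `X^5 - (X-2)^5 - 10 ((X-1)^2+1)^2 + 9 - 1 = 0`
-/

namespace Pool.Agent.TH285.SN

open Finset

/-- the entries of the tuples -/
def ent (X : ℤ) : ℕ → ℤ
  | 0 => X ^ 5
  | 1 => -(X - 2) ^ 5
  | 2 => -(10 * ((X - 1) ^ 2 + 1) ^ 2)
  | 3 => 9
  | 4 => -1
  | (j + 5) => (-1) ^ j

theorem sum_ent (X : ℤ) (k : ℕ) : ∑ j ∈ range (5 + 2 * k), ent X j = 0 := by
  induction k with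
  | zero =>
    simp only [mul_zero, add_zero, sum_range_succ, sum_range_zero, ent]
    ring
  | succ k ih =>
    have h : 5 + 2 * (k + 1) = 5 + 2 * k + 1 + 1 := by ring
    rw [h, sum_range_succ, sum_range_succ, ih]
    have h1 : 5 + 2 * k = (2 * k) + 5 := by ring
    have h2 : 5 + 2 * k + 1 = (2 * k + 1) + 5 := by ring
    rw [h2, h1]
    simp only [ent, pow_succ, pow_mul]
    norm_num

theorem cop_of {X c d w : ℤ} (h : IsCoprime c d) (hX : X = c + d * w) : IsCoprime X d := by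
  rw [hX]; exact h.add_mul_left_left w

theorem ent_cop {X z : ℤ} (hz : X = 1 + 30 * z) : ∀ i j : ℕ, i < j →
    IsCoprime (ent X i) (ent X j) := by
  have c30 : IsCoprime X 30 := cop_of (c := 1) (w := z) isCoprime_one_left (by rw [hz])
  have d30 : IsCoprime (X - 2) 30 := cop_of (c := -1) (w := z) (by norm_num) (by rw [hz]; ring)
  have e3 : IsCoprime ((X - 1) ^ 2 + 1) 3 :=
    cop_of (c := 1) (w := 300 * z ^ 2) isCoprime_one_left (by rw [hz]; ring)
  have c2 : IsCoprime X 2 := c30.of_isCoprime_of_dvd_right (by norm_num)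
  have c10 : IsCoprime X 10 := c30.of_isCoprime_of_dvd_right (by norm_num)
  have c3 : IsCoprime X 3 := c30.of_isCoprime_of_dvd_right (by norm_num)
  have d2 : IsCoprime (X - 2) 2 := d30.of_isCoprime_of_dvd_right (by norm_num)
  have d10 : IsCoprime (X - 2) 10 := d30.of_isCoprime_of_dvd_right (by norm_num)
  have d3 : IsCoprime (X - 2) 3 := d30.of_isCoprime_of_dvd_right (by norm_num)
  have cXY : IsCoprime X (X - 2) := by
    have h2 : X - 2 = -2 + X * 1 := by ring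
    rw [h2]
    exact (c2.neg_right).add_mul_left_right 1
  have cXQ : IsCoprime X ((X - 1) ^ 2 + 1) := by
    have h2 : (X - 1) ^ 2 + 1 = 2 + X * (X - 2) := by ring
    rw [h2]
    exact c2.add_mul_left_right _
  have cYQ : IsCoprime (X - 2) ((X - 1) ^ 2 + 1) := by
    have h2 : (X - 1) ^ 2 + 1 = 2 + (X - 2) * X := by ring
    rw [h2]
    exact d2.add_mul_left_right _
  have h9 : (9 : ℤ) = 3 ^ 2 := by norm_num
  have h103 : IsCoprime (10 : ℤ) 3 := by norm_num
  intro i j hij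
  rcases j with _ | _ | _ | _ | _ | j
  · omega
  · obtain rfl : i = 0 := by omega
    simp only [ent]
    exact (cXY.pow).neg_right
  · rcases i with _ | _ | i
    · simp only [ent]
      exact ((c10.pow_left).mul_right (cXQ.pow)).neg_right
    · simp only [ent]
      exact (((d10.pow_left).mul_right (cYQ.pow)).neg_right).neg_left
    · omega
  · rcases i with _ | _ | _ | i
    · simp only [ent]
      rw [h9]
      exact c3.pow
    · simp only [ent]
      rw [h9]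
      exact (d3.pow).neg_left
    · simp only [ent]
      rw [h9]
      exact ((h103.pow_right).mul_left (e3.pow)).neg_left
    · omega
  · simp only [ent]
    exact isCoprime_one_right.neg_right
  · simp only [ent]
    have h : IsUnit ((-1 : ℤ) ^ j) := (isUnit_one.neg).pow j
    obtain ⟨u, hu⟩ := h
    rw [← hu]
    exact ⟨0, ((u⁻¹ : ℤˣ) : ℤ), by simp⟩

theorem ent_ne {X : ℤ} (hX : 2 < X) (i : ℕ) : ent X i ≠ 0 := by
  rcases i with _ | _ | _ | _ | _ | i
  · simp only [ent]; positivity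
  · simp only [ent, neg_ne_zero]
    have : 0 < X - 2 := by linarith
    positivity
  · simp only [ent, neg_ne_zero]
    positivity
  · simp only [ent]; norm_num
  · simp only [ent]; norm_num
  · simp only [ent]
    exact pow_ne_zero _ (by norm_num)

/-- every prime factor of an entry divides this number -/
def wit (X w : ℕ) : ℕ := 31 * (17 * w) * (10 * ((X - 1) ^ 2 + 1)) * 3

theorem prime_dvd_wit {X w m : ℕ} (hX : 2 < X) {e : ℕ} (he : X = 31 ^ e)
    (hw : X - 2 = 17 ^ (m + 1) * w) {p : ℕ} (hp : p.Prime)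
    (i : ℕ) (h : (p : ℤ) ∣ ent (X : ℤ) i) : p ∣ wit X w := by
  have hpI : Prime (p : ℤ) := Nat.prime_iff_prime_int.mp hp
  have e1 : ((X : ℤ) - 2) = ((X - 2 : ℕ) : ℤ) := by omega
  have e2 : ((X : ℤ) - 1) = ((X - 1 : ℕ) : ℤ) := by omega
  have hw' : ∀ a b c : ℕ, wit X w = a * b * c → p ∣ b → p ∣ wit X w := by
    intro a b c h1 h2
    rw [h1]
    exact Dvd.dvd.mul_right (Dvd.dvd.mul_left h2 a) c
  rcases i with _ | _ | _ | _ | _ | i
  · simp only [ent] at h
    have h1 := hpI.dvd_of_dvd_pow h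
    have h2 : p ∣ X := by exact_mod_cast h1
    rw [he] at h2
    have h3 := hp.dvd_of_dvd_pow h2
    exact hw' 1 31 ((17 * w) * (10 * ((X - 1) ^ 2 + 1)) * 3) (by unfold wit; ring) h3
  · simp only [ent, dvd_neg] at h
    have h1 := hpI.dvd_of_dvd_pow h
    rw [e1] at h1
    have h2 : p ∣ X - 2 := by exact_mod_cast h1
    rw [hw] at h2
    have h3 : p ∣ 17 * w := by
      rcases hp.dvd_mul.1 h2 with h4 | h4
      · exact Dvd.dvd.mul_right (hp.dvd_of_dvd_pow h4) w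
      · exact Dvd.dvd.mul_left h4 17
    exact hw' 31 (17 * w) ((10 * ((X - 1) ^ 2 + 1)) * 3) (by unfold wit; ring) h3
  · simp only [ent, dvd_neg] at h
    have h0 : p ∣ 10 * ((X - 1) ^ 2 + 1) := by
      rcases hpI.dvd_or_dvd h with h1 | h1
      · have h2 : p ∣ 10 := by exact_mod_cast h1
        exact Dvd.dvd.mul_right h2 _
      · have h1 := hpI.dvd_of_dvd_pow h1
        rw [e2] at h1
        have h2 : p ∣ (X - 1) ^ 2 + 1 := by exact_mod_cast h1
        exact Dvd.dvd.mul_left h2 _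
    exact hw' (31 * (17 * w)) (10 * ((X - 1) ^ 2 + 1)) 3 (by unfold wit; ring) h0
  · simp only [ent] at h
    have h2 : p ∣ 9 := by exact_mod_cast h
    have h3 : p ∣ 3 := hp.dvd_of_dvd_pow (n := 2) (by simpa using h2)
    exact hw' (31 * (17 * w) * (10 * ((X - 1) ^ 2 + 1))) 3 1 (by unfold wit; ring) h3
  · simp only [ent, dvd_neg] at h
    exact absurd h hpI.not_dvd_one
  · simp only [ent] at h
    have h1 : IsUnit ((-1 : ℤ) ^ i) := (isUnit_one.neg).pow i
    exact absurd (isUnit_of_dvd_unit h h1) hpI.not_isUnit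

/-- the radical of the product of the entries -/
def rad {n : ℕ} (x : Fin n → ℤ) : ℕ := ∏ p ∈ (∏ i, x i).natAbs.primeFactors, p

theorem rad_le_of {n : ℕ} (x : Fin n → ℤ) (W : ℕ) (hW : 0 < W)
    (h : ∀ p : ℕ, p.Prime → ∀ i, (p : ℤ) ∣ x i → p ∣ W) : rad x ≤ W := by
  refine le_trans ?_ (Nat.le_of_dvd hW (Nat.prod_primeFactors_dvd W))
  unfold rad
  refine Finset.prod_le_prod_of_subset_of_one_le' ?_ ?_
  · intro p hp
    have hp1 := Nat.prime_of_mem_primeFactors hp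
    have hp2 := Nat.dvd_of_mem_primeFactors hp
    rw [Nat.mem_primeFactors]
    refine ⟨hp1, ?_, hW.ne'⟩
    have hp3 : (p : ℤ) ∣ ∏ i : Fin n, x i := Int.natCast_dvd.mpr hp2
    obtain ⟨i, -, hi⟩ := (Nat.prime_iff_prime_int.mp hp1).exists_mem_finset_dvd hp3
    exact h p hp1 i hi
  · intro p hp _
    exact (Nat.prime_of_mem_primeFactors hp).one_le

theorem one_le_rad {n : ℕ} (x : Fin n → ℤ) : 1 ≤ rad x := by
  unfold rad
  exact Finset.one_le_prod' fun p hp => (Nat.prime_of_mem_primeFactors hp).one_le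

/-- an admissible tuple: non-zero pairwise coprime integers with sum zero -/
def Adm {n : ℕ} (x : Fin n → ℤ) : Prop :=
  (∀ i, x i ≠ 0) ∧ (∀ i j, i ≠ j → Int.gcd (x i) (x j) = 1) ∧ ∑ i, x i = 0

theorem adm_ent {X z : ℤ} (hz : X = 1 + 30 * z) (hX : 2 < X) {n : ℕ} (hn : 5 ≤ n)
    (ho : Odd n) : Adm (fun i : Fin n => ent X i) := by
  refine ⟨fun i => ent_ne hX i, ?_, ?_⟩
  · intro i j hij
    rw [← Int.isCoprime_iff_gcd_eq_one]
    have hne : (i : ℕ) ≠ (j : ℕ) := fun h => hij (Fin.ext h)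
    rcases lt_or_gt_of_ne hne with h | h
    · exact ent_cop hz _ _ h
    · exact (ent_cop hz _ _ h).symm
  · obtain ⟨k, rfl⟩ : ∃ k, n = 5 + 2 * k := by
      obtain ⟨m, hm⟩ := ho
      exact ⟨m - 2, by omega⟩
    rw [Fin.sum_univ_eq_sum_range (fun i => ent X i) (5 + 2 * k)]
    exact sum_ent X k

/-- the exponents -/
theorem exists_exp (m : ℕ) : ∃ k : ℕ, k < 17 ^ m ∧
    (17 : ℤ) ^ (m + 1) ∣ (31 : ℤ) ^ (14 + 16 * k) - 2 := by
  obtain ⟨k, hk, h⟩ := lift (q := 17) (by norm_num) (by norm_num) (g := (31 : ℤ) ^ 16)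
    (b := ((31 : ℤ) ^ 16 - 1) / 17) (by norm_num) (by norm_num) (A := (31 : ℤ) ^ 14) (B := 2)
    (by norm_num) (by norm_num) m
  refine ⟨k, hk, ?_⟩
  rw [pow_add (31 : ℤ), pow_mul (31 : ℤ)]
  exact_mod_cast h

/-- For every `m` there is an admissible tuple with first entry `X ^ 5`, with
`rad * 17 ^ (m + 1) ≤ 15810 X ^ 3` and `17 ^ (m + 1) < X ≤ 31 ^ (30 * 17 ^ m)`. -/
theorem exists_tuple {n : ℕ} (hn : 5 ≤ n) (ho : Odd n) (m : ℕ) :
    ∃ (x : Fin n → ℤ) (X : ℕ), Adm x ∧ x ⟨0, by omega⟩ = (X : ℤ) ^ 5 ∧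
      rad x * 17 ^ (m + 1) ≤ 15810 * X ^ 3 ∧ 17 ^ (m + 1) < X ∧ X ≤ 31 ^ (30 * 17 ^ m) := by
  obtain ⟨k, hk, h⟩ := exists_exp m
  set e : ℕ := 14 + 16 * k with he
  set X : ℕ := 31 ^ e with hX
  have h2X : 2 < X := by
    rw [hX]
    calc 2 < 31 ^ 1 := by norm_num
      _ ≤ 31 ^ e := Nat.pow_le_pow_right (by norm_num) (by omega)
  obtain ⟨w, hw⟩ : (17 : ℕ) ^ (m + 1) ∣ X - 2 := by
    have h1 : ((17 ^ (m + 1) : ℕ) : ℤ) ∣ ((X - 2 : ℕ) : ℤ) := by
      rw [Nat.cast_sub h2X.le, hX]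
      push_cast
      exact h
    exact_mod_cast h1
  have hw0 : 0 < w := by
    rcases Nat.eq_zero_or_pos w with h1 | h1
    · rw [h1] at hw; omega
    · exact h1
  obtain ⟨z, hz⟩ : ∃ z : ℤ, (X : ℤ) = 1 + 30 * z := by
    have h1 : 31 ^ e ≡ 1 ^ e [MOD 30] := Nat.ModEq.pow e (by decide)
    rw [one_pow] at h1
    obtain ⟨z, hz⟩ := Nat.modEq_iff_dvd.mp h1.symm
    refine ⟨z, ?_⟩
    rw [hX]
    push_cast at hz ⊢
    linarith
  refine ⟨fun i => ent X i, X, adm_ent hz (by exact_mod_cast h2X) hn ho, rfl, ?_, ?_, ?_⟩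
  · have h1 : rad (fun i : Fin n => ent (X : ℤ) i) ≤ wit X w :=
      rad_le_of _ _ (by unfold wit; positivity) fun p hp i hi =>
        prime_dvd_wit h2X hX hw hp i hi
    have h2 : w * 17 ^ (m + 1) ≤ X := by
      rw [mul_comm, ← hw]; omega
    have h3 : (X - 1) ^ 2 + 1 ≤ X ^ 2 := by
      obtain ⟨Y, hY⟩ : ∃ Y, X = Y + 1 := ⟨X - 1, by omega⟩
      rw [hY]
      simp only [Nat.add_sub_cancel]
      nlinarith
    calc rad (fun i : Fin n => ent (X : ℤ) i) * 17 ^ (m + 1)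
        ≤ wit X w * 17 ^ (m + 1) := Nat.mul_le_mul_right _ h1
      _ = 15810 * (w * 17 ^ (m + 1)) * ((X - 1) ^ 2 + 1) := by unfold wit; ring
      _ ≤ 15810 * X * X ^ 2 := by gcongr
      _ = 15810 * X ^ 3 := by ring
  · have h1 : 17 ^ (m + 1) ≤ X - 2 := by
      rw [hw]; exact Nat.le_mul_of_pos_right _ hw0
    omega
  · rw [hX]
    apply Nat.pow_le_pow_right (by norm_num)
    have : 1 ≤ 17 ^ m := Nat.one_le_pow _ _ (by norm_num)
    omega

end Pool.Agent.TH285.SN
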