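import Pool.Agent.TH96.NC.Even3
import Pool.Agent.TH285.SN.Odd

set_option autoImplicit false

/-!
# The strong n-conjecture for even `n`: the tuples of `Pool.Agent.TH96.NC` with `X - 48` divisible by
a high power of `47`
-/

namespace Pool.Agent.TH285.SN

open Finset

/-- a multiple of the order of `11` modulo `LN` -/
def h11 : ℕ := 141706151580

theorem h11_zmod : (11 : ZMod 287663487713490) ^ 141706151580 = 1 := by
  reduce_mod_char

theorem modEq_of_zmod (N k : ℕ) (h : (11 : ZMod N) ^ k = 1) : 11 ^ k ≡ 1 [MOD N] := by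
  apply (ZMod.natCast_eq_natCast_iff _ _ _).1
  rw [Nat.cast_pow, Nat.cast_one]
  exact_mod_cast h

theorem h11_one : 11 ^ h11 ≡ 1 [MOD TH96.NC.LN] := by
  have e : TH96.NC.LN = 287663487713490 := by unfold TH96.NC.LN; norm_num
  rw [e]
  exact modEq_of_zmod 287663487713490 h11 h11_zmod

theorem g_zmod : (11 : ZMod 2209) ^ 6518482972680 = 377 := by
  reduce_mod_char

theorem g_mod : (2209 : ℤ) ∣ (11 : ℤ) ^ (46 * h11) - 377 := by
  have e : 46 * h11 = 6518482972680 := by unfold h11; norm_num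
  rw [e]
  have h := (ZMod.intCast_zmod_eq_zero_iff_dvd ((11 : ℤ) ^ 6518482972680 - 377) 2209).1 (by
    rw [Int.cast_sub, Int.cast_pow]
    have := g_zmod
    rw [show ((11 : ℤ) : ZMod 2209) = 11 from rfl, this]
    rfl)
  exact h

/-- the exponents -/
theorem exists_exp_even (m : ℕ) : ∃ k : ℕ, k < 47 ^ m ∧
    (47 : ℤ) ^ (m + 1) ∣ (11 : ℤ) ^ (46 * h11 * k) - 48 := by
  have h1 := g_mod
  obtain ⟨b, hb⟩ : (47 : ℤ) ∣ (11 : ℤ) ^ (46 * h11) - 1 := by
    obtain ⟨u, hu⟩ := h1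
    exact ⟨47 * u + 8, by linarith⟩
  have hb2 : ¬ (47 : ℤ) ∣ b := by
    obtain ⟨u, hu⟩ := h1
    rintro ⟨c, hc⟩
    have : 47 * (47 * c) + 1 = 2209 * u + 377 := by rw [← hc]; linarith
    omega
  obtain ⟨k, hk, h⟩ := lift (q := 47) (by norm_num) (by norm_num) (g := (11 : ℤ) ^ (46 * h11))
    (b := b) (by push_cast; linarith) (by exact_mod_cast hb2) (A := 1) (B := 48)
    (by norm_num) (by norm_num) m
  refine ⟨k, hk, ?_⟩
  rw [pow_mul (11 : ℤ)]
  rw [one_mul] at h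
  exact_mod_cast h

/-- every prime factor of an entry divides this number -/
def wit2 (X w : ℕ) : ℕ :=
  11 * (47 * w) * (7 * (X - 24) ^ 2 + 7488) * 7 * ((X - 24) ^ 2 + 6336) * 1369826131969

theorem prime_dvd_wit2 {X w m : ℕ} (hX : 48 < X) {e : ℕ} (he : X = 11 ^ e)
    (hw : X - 48 = 47 ^ (m + 1) * w) {p : ℕ} (hp : p.Prime)
    (i : ℕ) (h : (p : ℤ) ∣ TH96.NC.ent (X : ℤ) i) : p ∣ wit2 X w := by
  have h1 := TH96.NC.prime_dvd_wit hX he hp i h
  unfold TH96.NC.wit at h1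
  unfold wit2
  rw [hw] at h1
  have key : ∀ a b c : ℕ, a * (47 ^ (m + 1) * w) * b = c → p ∣ c → p ∣ a * (47 * w) * b := by
    intro a b c h2 h3
    rw [← h2] at h3
    rcases hp.dvd_mul.1 h3 with h4 | h4
    · rcases hp.dvd_mul.1 h4 with h5 | h5
      · exact Dvd.dvd.mul_right (Dvd.dvd.mul_right h5 _) _
      · have h6 : p ∣ 47 * w := by
          rcases hp.dvd_mul.1 h5 with h7 | h7
          · exact Dvd.dvd.mul_right (hp.dvd_of_dvd_pow h7) w
          · exact Dvd.dvd.mul_left h7 47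
        exact Dvd.dvd.mul_right (Dvd.dvd.mul_left h6 _) _
    · exact Dvd.dvd.mul_left h4 _
  have h2 := key 11 ((7 * (X - 24) ^ 2 + 7488) * 7 * ((X - 24) ^ 2 + 6336) * 1369826131969) _
    (by ring) h1
  have e : 11 * (47 * w) * ((7 * (X - 24) ^ 2 + 7488) * 7 * ((X - 24) ^ 2 + 6336) *
      1369826131969) = 11 * (47 * w) * (7 * (X - 24) ^ 2 + 7488) * 7 * ((X - 24) ^ 2 + 6336) *
      1369826131969 := by ring
  rw [← e]
  exact h2

/-- the constant -/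
def cE : ℕ := 11 * 47 * 7495 * 7 * 6337 * 1369826131969

/-- For every `m ≥ 1` there is an admissible tuple with first entry `X ^ 7`, with
`rad * 47 ^ (m + 1) ≤ C X ^ 5` and `47 ^ (m + 1) < X ≤ 11 ^ (C' * 47 ^ m)`. -/
theorem exists_tuple_even {n : ℕ} (hn : 6 ≤ n) (he : Even n) (m : ℕ) (hm : 1 ≤ m) :
    ∃ (x : Fin n → ℤ) (X : ℕ), TH96.NC.Adm x ∧ x ⟨0, by omega⟩ = (X : ℤ) ^ 7 ∧
      TH96.NC.rad x * 47 ^ (m + 1) ≤ cE * X ^ 5 ∧ 47 ^ (m + 1) < X ∧
      X ≤ 11 ^ (46 * h11 * 47 ^ m) := by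
  obtain ⟨k, hk, h⟩ := exists_exp_even m
  obtain ⟨e, hee⟩ : ∃ e : ℕ, e = 46 * h11 * k := ⟨_, rfl⟩
  obtain ⟨X, hX⟩ : ∃ X : ℕ, X = 11 ^ e := ⟨_, rfl⟩
  have hXZ : (X : ℤ) = (11 : ℤ) ^ (46 * h11 * k) := by rw [hX, hee]; push_cast; rfl
  rw [← hXZ] at h
  have hX1 : 1 ≤ X := by rw [hX]; exact Nat.one_le_pow _ _ (by norm_num)
  have hbig : (48 : ℤ) < 47 ^ (m + 1) := by
    calc (48 : ℤ) < 47 ^ 2 := by norm_num
      _ ≤ 47 ^ (m + 1) := pow_le_pow_right₀ (by norm_num) (by omega)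
  have hXne : (X : ℤ) - 48 ≠ 0 := by
    intro h1
    have h2 : X = 48 := by omega
    have h3 : X % 2 = 1 := by
      rw [hX, Nat.pow_mod]; norm_num
    omega
  have h48 : 48 < X := by
    by_contra hcon
    have h2 : (0 : ℤ) < 48 - X := by omega
    have h3 : (47 : ℤ) ^ (m + 1) ∣ 48 - X := by
      have := (dvd_neg (a := (47 : ℤ) ^ (m + 1))).2 h
      rwa [neg_sub] at this
    have h4 := Int.le_of_dvd h2 h3
    omega
  obtain ⟨w, hw⟩ : (47 : ℕ) ^ (m + 1) ∣ X - 48 := by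
    have h1 : ((47 ^ (m + 1) : ℕ) : ℤ) ∣ ((X - 48 : ℕ) : ℤ) := by
      rw [Nat.cast_sub h48.le]
      push_cast
      exact h
    exact_mod_cast h1
  have hw0 : 0 < w := by
    rcases Nat.eq_zero_or_pos w with h1 | h1
    · rw [h1] at hw; omega
    · exact h1
  obtain ⟨z, hz⟩ : ∃ z : ℤ, (X : ℤ) = 1 + TH96.NC.cL * z := by
    have h1 : 11 ^ e ≡ 1 [MOD TH96.NC.LN] := by
      have e1 : e = h11 * (46 * k) := by rw [hee]; ring
      rw [e1, pow_mul]
      have := h11_one.pow (46 * k)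
      rwa [one_pow] at this
    obtain ⟨z, hz⟩ := Nat.modEq_iff_dvd.mp h1.symm
    refine ⟨z, ?_⟩
    have e : ((TH96.NC.LN : ℕ) : ℤ) = TH96.NC.cL := by
      unfold TH96.NC.LN TH96.NC.cL TH96.NC.cA
      norm_num
    rw [e] at hz
    rw [hX]
    push_cast at hz ⊢
    linarith
  refine ⟨fun i => TH96.NC.ent X i, X, TH96.NC.adm_ent hz (by exact_mod_cast h48) hn he, rfl,
    ?_, ?_, ?_⟩
  · have h1 : TH96.NC.rad (fun i : Fin n => TH96.NC.ent (X : ℤ) i) ≤ wit2 X w := by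
      have := rad_le_of (fun i : Fin n => TH96.NC.ent (X : ℤ) i) (wit2 X w)
        (by unfold wit2; positivity) fun p hp i hi =>
        prime_dvd_wit2 h48 hX hw hp i hi
      exact this
    have h2 : w * 47 ^ (m + 1) ≤ X := by
      rw [mul_comm, ← hw]; omega
    have h2' : X - 24 ≤ X := Nat.sub_le _ _
    have h3 : (X - 24) ^ 2 ≤ X ^ 2 := Nat.pow_le_pow_left h2' 2
    have h4 : 1 ≤ X ^ 2 := Nat.one_le_pow _ _ (by omega)
    have h5 : 7 * (X - 24) ^ 2 + 7488 ≤ 7495 * X ^ 2 := by omega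
    have h6 : (X - 24) ^ 2 + 6336 ≤ 6337 * X ^ 2 := by omega
    calc TH96.NC.rad (fun i : Fin n => TH96.NC.ent (X : ℤ) i) * 47 ^ (m + 1)
        ≤ wit2 X w * 47 ^ (m + 1) := Nat.mul_le_mul_right _ h1
      _ = 11 * 47 * (w * 47 ^ (m + 1)) * (7 * (X - 24) ^ 2 + 7488) * 7 *
          ((X - 24) ^ 2 + 6336) * 1369826131969 := by unfold wit2; ring
      _ ≤ 11 * 47 * X * (7495 * X ^ 2) * 7 * (6337 * X ^ 2) * 1369826131969 := by gcongr
      _ = cE * X ^ 5 := by unfold cE; ring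
  · have h1 : 47 ^ (m + 1) ≤ X - 48 := by
      rw [hw]; exact Nat.le_mul_of_pos_right _ hw0
    omega
  · rw [hX, hee]
    apply Nat.pow_le_pow_right (by norm_num)
    exact Nat.mul_le_mul_left _ hk.le

end Pool.Agent.TH285.SN
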