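import Mathlib

set_option autoImplicit false

/-!
# Exponential congruences modulo prime powers
-/

namespace Pool.Agent.TH285.SN

theorem pow_expand2 (x : ℤ) (n : ℕ) : ∃ r : ℤ, (1 + x) ^ n = 1 + n * x + x ^ 2 * r := by
  induction n with
  | zero => exact ⟨0, by simp⟩
  | succ n ih =>
    obtain ⟨r, hr⟩ := ih
    refine ⟨n + r + r * x, ?_⟩
    rw [pow_succ, hr]; push_cast; ring

theorem pow_expand3 (x : ℤ) (n : ℕ) : ∃ r : ℤ, (1 + x) ^ n =
    1 + n * x + (n.choose 2 : ℕ) * x ^ 2 + x ^ 3 * r := by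
  induction n with
  | zero => exact ⟨0, by simp⟩
  | succ n ih =>
    obtain ⟨r, hr⟩ := ih
    refine ⟨(n.choose 2 : ℕ) + r + r * x, ?_⟩
    have h : (n + 1).choose 2 = n + n.choose 2 := by
      rw [Nat.choose_succ_succ' n 1, Nat.choose_one_right]
    rw [pow_succ, hr, h]; push_cast; ring

theorem gpow {q : ℕ} (hq : q.Prime) (hq3 : 3 ≤ q) {g b : ℤ} (hg : g = 1 + q * b)
    (hb : ¬ (q : ℤ) ∣ b) (m : ℕ) :
    ∃ b' : ℤ, g ^ (q ^ m) = 1 + (q : ℤ) ^ (m + 1) * b' ∧ ¬ (q : ℤ) ∣ b' := by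
  induction m with
  | zero => exact ⟨b, by rw [hg]; simp, hb⟩
  | succ m ih =>
    obtain ⟨b', h1, h2⟩ := ih
    obtain ⟨r, hr⟩ := pow_expand3 ((q : ℤ) ^ (m + 1) * b') q
    obtain ⟨s, hs⟩ := hq.dvd_choose_self (k := 2) (by norm_num) (by omega)
    refine ⟨b' + q * ((q : ℤ) ^ m * s * b' ^ 2 + (q : ℤ) ^ (2 * m) * b' ^ 3 * r), ?_, ?_⟩
    · rw [pow_succ q m, pow_mul, h1, hr, hs]
      push_cast
      ring
    · intro h
      apply h2
      have := (dvd_add_left (Dvd.intro _ rfl :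
        (q : ℤ) ∣ q * ((q : ℤ) ^ m * s * b' ^ 2 + (q : ℤ) ^ (2 * m) * b' ^ 3 * r))).1 h
      exact this

theorem lift {q : ℕ} (hq : q.Prime) (hq3 : 3 ≤ q) {g b : ℤ} (hg : g = 1 + q * b)
    (hb : ¬ (q : ℤ) ∣ b) {A B : ℤ} (hA : ¬ (q : ℤ) ∣ A) (h0 : (q : ℤ) ∣ A - B) (m : ℕ) :
    ∃ k : ℕ, k < q ^ m ∧ (q : ℤ) ^ (m + 1) ∣ A * g ^ k - B := by
  have hqI : Prime (q : ℤ) := Nat.prime_iff_prime_int.mp hq
  have : Fact q.Prime := ⟨hq⟩
  induction m with
  | zero => exact ⟨0, by simp, by simpa using h0⟩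
  | succ m ih =>
    obtain ⟨k, hk, a, ha⟩ := ih
    obtain ⟨b', h1, h2⟩ := gpow hq hq3 hg hb m
    have hgq : ¬ (q : ℤ) ∣ g := by
      rw [hg]
      intro h
      have h3 : (q : ℤ) ∣ 1 := (dvd_add_left (Dvd.intro b rfl)).1 h
      exact hqI.not_dvd_one h3
    have hc : ¬ (q : ℤ) ∣ A * g ^ k * b' := by
      intro h
      rcases hqI.dvd_or_dvd h with h | h
      · rcases hqI.dvd_or_dvd h with h | h
        · exact hA h
        · exact hgq (hqI.dvd_of_dvd_pow h)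
      · exact h2 h
    have hc0 : ((A * g ^ k * b' : ℤ) : ZMod q) ≠ 0 := by
      intro h
      exact hc ((ZMod.intCast_zmod_eq_zero_iff_dvd _ q).1 h)
    set c : ℤ := A * g ^ k * b' with hcdef
    set j : ℕ := (-(a : ZMod q) / (c : ZMod q)).val with hj
    have hjq : j < q := ZMod.val_lt _
    have hd : (q : ℤ) ∣ a + c * j := by
      rw [← ZMod.intCast_zmod_eq_zero_iff_dvd]
      push_cast
      rw [hj, ZMod.natCast_zmod_val]
      rw [mul_div_cancel₀ _ hc0]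
      ring
    obtain ⟨w, hw⟩ := hd
    obtain ⟨r, hr⟩ := pow_expand2 ((q : ℤ) ^ (m + 1) * b') j
    refine ⟨k + q ^ m * j, ?_, ?_⟩
    · have : q ^ m * j ≤ q ^ m * (q - 1) := Nat.mul_le_mul_left _ (by omega)
      have h3 : q ^ (m + 1) = q ^ m * (q - 1) + q ^ m := by
        rw [pow_succ]
        obtain ⟨q', rfl⟩ : ∃ q', q = q' + 1 := ⟨q - 1, by omega⟩
        simp only [Nat.add_sub_cancel]; ring
      omega
    · rw [pow_add g, pow_mul g, h1, hr]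
      refine ⟨w + (q : ℤ) ^ m * (A * g ^ k * b' ^ 2 * r), ?_⟩
      have e1 : A * g ^ k = B + (q : ℤ) ^ (m + 1) * a := by linarith
      have e2 : a + A * g ^ k * b' * j = q * w := by rw [← hw, hcdef]
      have e3 : A * (g ^ k * (1 + (j : ℤ) * ((q : ℤ) ^ (m + 1) * b') +
          ((q : ℤ) ^ (m + 1) * b') ^ 2 * r)) - B =
          (A * g ^ k - B) + (q : ℤ) ^ (m + 1) * (A * g ^ k * b' * j) +
            (q : ℤ) ^ (m + 1) * (q : ℤ) ^ (m + 1) * (A * g ^ k * b' ^ 2 * r) := by ring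
      rw [e3, ha]
      have e4 : (q : ℤ) ^ (m + 1) * a + (q : ℤ) ^ (m + 1) * (A * g ^ k * b' * j) =
          (q : ℤ) ^ (m + 1) * (q * w) := by rw [← e2]; ring
      rw [e4]
      ring

end Pool.Agent.TH285.SN
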